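import Pool.Agent.H14R3.KK.Defs
import Pool.Agent.H14R3.KK.S.LMAXB
import Pool.Agent.H14R3.KK.S.INTEG
import Pool.Agent.H14R3.KK.S.DEG

/-! Task LOWB of project KK (MP_d47e08_pr). -/

set_option autoImplicit false
open MeasureTheory ProbabilityTheory Filter Topology

namespace KK14

namespace LOWBx

instance gau_prob (n r : ℕ) : IsProbabilityMeasure (gau n r) := by
  unfold gau; infer_instance

theorem coord_integrable (n r : ℕ) (S : Sub n r) :
    Integrable (fun Z : Sub n r → ℝ => Z S) (gau n r) := by
  have h := measurePreserving_eval (fun _ : Sub n r => gaussianReal 0 1) S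
  have h2 : Integrable (fun x : ℝ => x) (gaussianReal 0 1) :=
    (memLp_id_gaussianReal 1).integrable (by simp)
  exact h.integrable_comp_of_integrable h2

theorem coord_integral (n r : ℕ) (S : Sub n r) :
    ∫ Z : Sub n r → ℝ, Z S ∂(gau n r) = 0 := by
  have h := measurePreserving_eval (fun _ : Sub n r => gaussianReal 0 1) S
  have h2 : ∫ x : ℝ, x ∂(gaussianReal 0 1) = 0 := by
    have := integral_id_gaussianReal (μ := 0) (v := 1)
    simpa using this
  have h4 : ∫ x : ℝ, x ∂(Measure.map (Function.eval S) (gau n r)) =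
      ∫ Z : Sub n r → ℝ, Z S ∂(gau n r) :=
    integral_map (measurable_pi_apply S).aemeasurable aestronglyMeasurable_id
  rw [← h4, ← h2]
  unfold gau
  rw [h.map_eq]

theorem entry_integrable (n r l : ℕ) (lam : ℝ) (I J : Sub n l) :
    Integrable (fun Z : Sub n r → ℝ => kik n r l lam Z I J) (gau n r) := by
  unfold kik
  by_cases h : (symmDiff I.1 J.1).card = r
  · simp only [h, dite_true]
    exact (integrable_const _).add (coord_integrable n r _)
  · simp only [h, dite_false]
    exact integrable_zero _ _ _

theorem entry_integral (n r l : ℕ) (lam : ℝ) (I J : Sub n l) :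
    ∫ Z : Sub n r → ℝ, kik n r l lam Z I J ∂(gau n r) =
      lam * (if (symmDiff I.1 J.1).card = r then (1 : ℝ) else 0) := by
  unfold kik
  by_cases h : (symmDiff I.1 J.1).card = r
  · simp only [h, dite_true, if_true, mul_one]
    rw [integral_add (integrable_const _) (coord_integrable n r _), coord_integral]
    simp
  · simp only [h, dite_false, if_false, mul_zero, integral_zero]

end LOWBx

theorem LOWB (n q l : ℕ) (hq : 1 ≤ q) (hn : l ≤ n) (lam : ℝ) :
    lam * ((l.choose q : ℝ) * ((n - l).choose q : ℝ)) ≤ Elm n (2 * q) l lam := by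
  set N : ℝ := (Fintype.card (Sub n l) : ℝ) with hN
  have hNpos : 0 < N := by
    have : Fintype.card (Sub n l) = n.choose l := by
      rw [Fintype.card_finset_len, Fintype.card_fin]
    rw [hN, this]
    exact_mod_cast Nat.choose_pos hn
  have hv : ∑ _i : Sub n l, (1 / Real.sqrt N) ^ 2 = 1 := by
    rw [Finset.sum_const, Finset.card_univ, nsmul_eq_mul, ← hN, div_pow, Real.sq_sqrt hNpos.le]
    field_simp
  have hb : ∀ Z : Sub n (2 * q) → ℝ,
      (1 / N) * ∑ I : Sub n l, ∑ J : Sub n l, kik n (2 * q) l lam Z I J ≤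
        lmax (kik n (2 * q) l lam Z) := by
    intro Z
    refine le_trans (le_of_eq ?_) (LMAXB (kik n (2 * q) l lam Z) (fun _ => 1 / Real.sqrt N) hv)
    rw [Finset.mul_sum]
    refine Finset.sum_congr rfl fun I _ => ?_
    rw [Finset.mul_sum]
    refine Finset.sum_congr rfl fun J _ => ?_
    have h1 : 1 / N = (1 / Real.sqrt N) * (1 / Real.sqrt N) := by
      rw [div_mul_div_comm, one_mul, Real.mul_self_sqrt hNpos.le]
    rw [h1]; ring
  have hint : Integrable (fun Z : Sub n (2 * q) → ℝ =>
      (1 / N) * ∑ I : Sub n l, ∑ J : Sub n l, kik n (2 * q) l lam Z I J) (gau n (2 * q)) := by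
    refine Integrable.const_mul ?_ _
    exact integrable_finsetSum _ fun I _ => integrable_finsetSum _ fun J _ =>
      LOWBx.entry_integrable n (2 * q) l lam I J
  have hmono := integral_mono hint (INTEG n (2 * q) l lam).2.1 hb
  refine le_trans (le_of_eq ?_) hmono
  rw [integral_const_mul, integral_finsetSum _ (fun I _ => integrable_finsetSum _ fun J _ =>
      LOWBx.entry_integrable n (2 * q) l lam I J)]
  have h2 : ∀ I : Sub n l, ∫ Z, ∑ J : Sub n l, kik n (2 * q) l lam Z I J ∂(gau n (2 * q)) =
      lam * ((l.choose q : ℝ) * ((n - l).choose q : ℝ)) := by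
    intro I
    rw [integral_finsetSum _ (fun J _ => LOWBx.entry_integrable n (2 * q) l lam I J),
      ← DEG n q l I, Finset.mul_sum]
    exact Finset.sum_congr rfl fun J _ => LOWBx.entry_integral n (2 * q) l lam I J
  rw [Finset.sum_congr rfl fun I _ => h2 I, Finset.sum_const, Finset.card_univ, nsmul_eq_mul,
    ← hN]
  field_simp

end KK14
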